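import Pool.Agent.Helper65.SG.Goals

/-!
# MP_a41896_nt, project SG, packet SGT-NQW: weighted degrees
-/

set_option autoImplicit false

open MvPolynomial

namespace Pool.Agent.Helper23.SGT

open WeierstrassCurve
open Pool.Agent.Helper29.BL Pool.Agent.Helper92.Ru Pool.Agent.Helper42.SG Pool.Agent.Helper65.SG

noncomputable section

/-- the degree of `F` in `(X_h, Ψ_h)` with weights `1, 2` is at most `d` (the same as `WD` of the goals) -/
def Wd {K : Type} [Field K] {n : ℕ} (h : Fin (2 * n + 2)) (d : ℕ) (F : GR K n) : Prop :=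
  ∀ m ∈ F.support, m (Sum.inl h) + 2 * m (Sum.inr h) ≤ d

section Wdalg

variable {K : Type} [Field K] {n : ℕ} {h : Fin (2 * n + 2)}

theorem Wd.mono {a b : ℕ} {F : GR K n} (hF : Wd h a F) (hab : a ≤ b) : Wd h b F :=
  fun m hm => (hF m hm).trans hab

theorem Wd.zero (a : ℕ) : Wd h a (0 : GR K n) := by
  intro m hm
  simp at hm

theorem Wd.const (k : K) : Wd h 0 (C k : GR K n) := by
  classical
  intro m hm
  rw [mem_support_iff, coeff_C] at hm
  by_cases h0 : 0 = m
  · rw [← h0]; simp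
  · rw [if_neg h0] at hm
    exact absurd rfl hm

theorem Wd.one : Wd h 0 (1 : GR K n) := by
  have := Wd.const (h := h) (n := n) (1 : K)
  rwa [map_one] at this

theorem Wd.add {a : ℕ} {F G : GR K n} (hF : Wd h a F) (hG : Wd h a G) : Wd h a (F + G) := by
  classical
  intro m hm
  rcases Finset.mem_union.1 (support_add hm) with h1 | h1
  · exact hF m h1
  · exact hG m h1

theorem Wd.neg {a : ℕ} {F : GR K n} (hF : Wd h a F) : Wd h a (-F) := by
  intro m hm
  rw [support_neg] at hm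
  exact hF m hm

theorem Wd.sub {a : ℕ} {F G : GR K n} (hF : Wd h a F) (hG : Wd h a G) : Wd h a (F - G) := by
  rw [sub_eq_add_neg]
  exact hF.add hG.neg

theorem Wd.mul {a b : ℕ} {F G : GR K n} (hF : Wd h a F) (hG : Wd h b G) :
    Wd h (a + b) (F * G) := by
  classical
  intro m hm
  obtain ⟨m1, h1, m2, h2, rfl⟩ := Finset.mem_add.1 (support_mul F G hm)
  have e1 := hF m1 h1
  have e2 := hG m2 h2
  rw [Finsupp.add_apply, Finsupp.add_apply]
  omega

theorem Wd.mul0 {a : ℕ} {F G : GR K n} (hF : Wd h 0 F) (hG : Wd h a G) : Wd h a (F * G) :=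
  (hF.mul hG).mono (by omega)

theorem Wd.pow {a : ℕ} {F : GR K n} (hF : Wd h a F) (k : ℕ) : Wd h (k * a) (F ^ k) := by
  induction k with
  | zero => rw [pow_zero]; exact Wd.one.mono (by omega)
  | succ k ih => rw [pow_succ]; exact (ih.mul hF).mono (by rw [Nat.succ_mul])

theorem Wd.prod {ι : Type} (s : Finset ι) (F : ι → GR K n) (d : ι → ℕ)
    (hF : ∀ i ∈ s, Wd h (d i) (F i)) : Wd h (∑ i ∈ s, d i) (∏ i ∈ s, F i) := by
  classical
  induction s using Finset.induction_on with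
  | empty => simpa using (Wd.one (h := h) (K := K) (n := n))
  | insert a s ha ih =>
    rw [Finset.sum_insert ha, Finset.prod_insert ha]
    exact (hF a (Finset.mem_insert_self a s)).mul
      (ih fun i hi => hF i (Finset.mem_insert_of_mem hi))

theorem Wd.sum {ι : Type} (s : Finset ι) (F : ι → GR K n) {d : ℕ}
    (hF : ∀ i ∈ s, Wd h d (F i)) : Wd h d (∑ i ∈ s, F i) := by
  classical
  induction s using Finset.induction_on with
  | empty => simpa using (Wd.zero (h := h) (K := K) (n := n) d)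
  | insert a s ha ih =>
    rw [Finset.sum_insert ha]
    exact (hF a (Finset.mem_insert_self a s)).add
      (ih fun i hi => hF i (Finset.mem_insert_of_mem hi))

theorem Wd.algebraMap (k : K) : Wd h 0 (algebraMap K (GR K n) k) := Wd.const k

theorem Wd.ofNat (k : ℕ) [k.AtLeastTwo] : Wd h 0 (OfNat.ofNat k : GR K n) := by
  have := Wd.const (h := h) (n := n) (OfNat.ofNat k : K)
  rwa [map_ofNat] at this

theorem Wd.int (k : ℤ) : Wd h 0 ((k : ℤ) : GR K n) := by
  have := Wd.const (h := h) (n := n) (k : K)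
  rwa [map_intCast] at this

/-- the weight of the variables of index `j` -/
def dl (h : Fin (2 * n + 2)) (j : ℕ) : ℕ := if j = h.val then 1 else 0

theorem Wd.gX (j : ℕ) : Wd h (dl h j) (gX K n j) := by
  classical
  unfold Pool.Agent.Helper65.SG.gX
  by_cases H : j < 2 * n + 2
  · rw [dif_pos H]
    intro m hm
    rw [support_X, Finset.mem_singleton] at hm
    subst hm
    unfold dl
    rw [Finsupp.single_apply, Finsupp.single_apply]
    by_cases h1 : j = h.val
    · simp [h1]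
    · have h2 : ¬ ((Sum.inl ⟨j, H⟩ : Fin (2 * n + 2) ⊕ Fin (2 * n + 2)) = Sum.inl h) := by
        intro h3
        exact h1 (congrArg Fin.val (Sum.inl.inj h3))
      rw [if_neg h2]
      simp
  · rw [dif_neg H]
    exact Wd.zero _

theorem Wd.gP (j : ℕ) : Wd h (2 * dl h j) (gP K n j) := by
  classical
  unfold Pool.Agent.Helper65.SG.gP
  by_cases H : j < 2 * n + 2
  · rw [dif_pos H]
    intro m hm
    rw [support_X, Finset.mem_singleton] at hm
    subst hm
    unfold dl
    rw [Finsupp.single_apply, Finsupp.single_apply]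
    by_cases h1 : j = h.val
    · simp [h1]
    · have h2 : ¬ ((Sum.inr ⟨j, H⟩ : Fin (2 * n + 2) ⊕ Fin (2 * n + 2)) = Sum.inr h) := by
        intro h3
        exact h1 (congrArg Fin.val (Sum.inr.inj h3))
      rw [if_neg h2]
      simp
  · rw [dif_neg H]
    exact Wd.zero _

theorem Wd.sgn (ε : Fin (2 * n) → ℤˣ) (j : ℕ) :
    Wd h (2 * dl h j) (sgn n ε (Pool.Agent.Helper65.SG.gP K n) j) := by
  unfold Pool.Agent.Helper65.SG.sgn
  by_cases H : j < 2 * n
  · rw [dif_pos H]
    exact (Wd.int _).mul0 (Wd.gP j)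
  · rw [dif_neg H]
    exact Wd.gP j

end Wdalg

section laws

variable {K : Type} [Field K] {n : ℕ} {h : Fin (2 * n + 2)}

/-- all `b_i` are constants -/
def Cb (h : Fin (2 * n + 2)) (W : WeierstrassCurve (GR K n)) : Prop :=
  Wd h 0 W.b₂ ∧ Wd h 0 W.b₄ ∧ Wd h 0 W.b₆ ∧ Wd h 0 W.b₈

theorem Cb_map (W : Affine K) : Cb h (W.map (algebraMap K (GR K n))) := by
  refine ⟨?_, ?_, ?_, ?_⟩
  · rw [map_b₂]; exact Wd.algebraMap _
  · rw [map_b₄]; exact Wd.algebraMap _
  · rw [map_b₆]; exact Wd.algebraMap _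
  · rw [map_b₈]; exact Wd.algebraMap _

variable {W : WeierstrassCurve (GR K n)}

theorem Wd_Ah (hW : Cb h W) {t z : GR K n} {d : ℕ} (ht : Wd h d t) (hz : Wd h d z) :
    Wd h (4 * d) (Ah W t z) := by
  obtain ⟨-, h4, h6, h8⟩ := hW
  unfold Ah
  refine ((Wd.sub ?_ ?_).sub ?_).sub ?_
  · exact ht.pow 4
  · exact ((h4.mul (ht.pow 2)).mul (hz.pow 2)).mono (by omega)
  · exact (((((Wd.ofNat 2).mul h6)).mul ht).mul (hz.pow 3)).mono (by omega)
  · exact (h8.mul (hz.pow 4)).mono (by omega)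

theorem Wd_Bh (hW : Cb h W) {t z : GR K n} {d : ℕ} (ht : Wd h d t) (hz : Wd h d z) :
    Wd h (4 * d) (Bh W t z) := by
  obtain ⟨h2, h4, h6, h8⟩ := hW
  unfold Bh
  refine ((Wd.add ?_ ?_).add ?_).add ?_
  · exact (((Wd.ofNat 4).mul (ht.pow 3)).mul hz).mono (by omega)
  · exact ((h2.mul (ht.pow 2)).mul (hz.pow 2)).mono (by omega)
  · exact (((((Wd.ofNat 2).mul h4)).mul ht).mul (hz.pow 3)).mono (by omega)
  · exact (h6.mul (hz.pow 4)).mono (by omega)

theorem Wd_Ch (hW : Cb h W) {t z : GR K n} {d : ℕ} (ht : Wd h d t) (hz : Wd h d z) :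
    Wd h (6 * d) (Ch W t z) := by
  obtain ⟨h2, h4, h6, h8⟩ := hW
  unfold Ch
  refine (((((Wd.add ?_ ?_).add ?_).add ?_).add ?_).add ?_).add ?_
  · exact ((Wd.ofNat 2).mul (ht.pow 6)).mono (by omega)
  · exact ((h2.mul (ht.pow 5)).mul hz).mono (by omega)
  · exact ((((Wd.ofNat 5).mul h4).mul (ht.pow 4)).mul (hz.pow 2)).mono (by omega)
  · exact ((((Wd.ofNat 10).mul h6).mul (ht.pow 3)).mul (hz.pow 3)).mono (by omega)
  · exact ((((Wd.ofNat 10).mul h8).mul (ht.pow 2)).mul (hz.pow 4)).mono (by omega)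
  · exact ((((h2.mul h8).sub (h4.mul h6)).mul ht).mul (hz.pow 5)).mono (by omega)
  · exact (((h4.mul h8).sub ((h6.pow 2).mono (by omega))).mul (hz.pow 6)).mono (by omega)

theorem Wd_Ph (hW : Cb h W) {x : GR K n} {d : ℕ} (hx : Wd h d x) (e : ℕ) :
    Wd h (4 ^ e * d) (Ph W e x).1 ∧ Wd h (4 ^ e * d) (Ph W e x).2 := by
  induction e with
  | zero => exact ⟨hx.mono (by simp), Wd.one.mono (by simp)⟩
  | succ e ih =>
    constructor
    · exact (Wd_Ah hW ih.1 ih.2).mono (le_of_eq (by rw [pow_succ]; ring))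
    · exact (Wd_Bh hW ih.1 ih.2).mono (le_of_eq (by rw [pow_succ]; ring))

theorem Wd_Rr (hW : Cb h W) {x : GR K n} {d : ℕ} (hx : Wd h d x) (e : ℕ) :
    Wd h (2 * (4 ^ e - 1) * d) (Rr W e x) := by
  induction e with
  | zero => exact Wd.one.mono (by simp)
  | succ e ih =>
    have h1 := Wd_Ph hW hx e
    refine (ih.mul (Wd_Ch hW h1.1 h1.2)).mono (le_of_eq ?_)
    have h2 : 1 ≤ 4 ^ e := Nat.one_le_pow _ _ (by norm_num)
    obtain ⟨k, hk⟩ := Nat.exists_eq_add_of_le h2
    rw [pow_succ, hk]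
    have h3 : (1 + k) * 4 - 1 = 3 + 4 * k := by omega
    rw [h3, Nat.add_sub_cancel_left]
    ring

theorem Wd_law (hW : Cb h W) {x c η : GR K n} {dx dc : ℕ} (hx : Wd h dx x) (hc : Wd h dc c)
    (hη : Wd h (2 * dx + 2 * dc) η) (e : ℕ) :
    Wd h (2 * 4 ^ e * dx + 2 * dc) (law W e false x c η).1 ∧
      Wd h (2 * 4 ^ e * dx + 2 * dc) (law W e false x c η).2 := by
  obtain ⟨ht, hz⟩ := Wd_Ph hW hx e
  have hR := Wd_Rr hW hx e
  obtain ⟨h2, h4, h6, h8⟩ := hW
  unfold law
  rw [if_neg (by simp)]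
  have hcz : Wd h (4 ^ e * dx + dc) (c * (Ph W e x).2) := (hc.mul hz).mono (by omega)
  have ht' : Wd h (4 ^ e * dx + dc) (Ph W e x).1 := ht.mono (by omega)
  have e1 : 2 * 4 ^ e * dx = 2 * (4 ^ e * dx) := by ring
  constructor
  · have h3 : Wd h (2 * (4 ^ e * dx + dc)) (Uh c (Ph W e x).1 (Ph W e x).2) := by
      unfold Uh
      exact (ht'.sub hcz).pow 2
    exact ((Wd.ofNat 2).mul h3).mono (by rw [e1]; omega)
  · refine Wd.add ?_ ?_
    · unfold Th
      refine ((Wd.add ?_ ?_).add ?_).add ?_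
      · exact (((Wd.ofNat 2).mul (ht'.add hcz)).mul (ht.mul hc)).mono (by rw [e1]; omega)
      · exact (h2.mul ((ht.mul hz).mul hc)).mono (by rw [e1]; omega)
      · exact ((h4.mul (ht'.add hcz)).mul hz).mono (by rw [e1]; omega)
      · exact (h6.mul (hz.pow 2)).mono (by rw [e1]; omega)
    · refine (hη.mul hR).mono ?_
      have h5 : 1 ≤ 4 ^ e := Nat.one_le_pow _ _ (by norm_num)
      obtain ⟨k, hk⟩ := Nat.exists_eq_add_of_le h5
      rw [hk, Nat.add_sub_cancel_left]
      exact le_of_eq (by ring)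

end laws

theorem card_mod (n i : ℕ) (hi : i < 2) :
    ∑ h' : Fin (2 * n), (if 2 * n + h'.val % 2 = 2 * n + i then 1 else 0) = n := by
  rw [Fin.sum_univ_eq_sum_range (fun k => if 2 * n + k % 2 = 2 * n + i then 1 else 0) (2 * n)]
  suffices H : ∀ m : ℕ, ∑ k ∈ Finset.range (2 * m), (if k % 2 = i then 1 else 0) = m by
    rw [← H n]
    refine Finset.sum_congr (by rw [H n]) fun k _ => ?_
    simp
  intro m
  induction m with
  | zero => simp
  | succ m ih =>
    rw [show 2 * (m + 1) = 2 * m + 1 + 1 by ring, Finset.sum_range_succ, Finset.sum_range_succ, ih]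
    have h1 : 2 * m % 2 = 0 := by omega
    have h2 : (2 * m + 1) % 2 = 1 := by omega
    rw [h1, h2]
    interval_cases i <;> simp

/-- **The general form**: all `M`, `δ`. -/
theorem main (K : Type) [Field K] (W : ℕ → Affine K) (n M δ : ℕ) (e : ℕ → ℕ)
    (c : Idx n M δ e → K) (ε : Fin (2 * n) → ℤˣ) (h : Fin (2 * n + 2)) :
    Wd h (if h.val < 2 * n then (2 * M + 1) * 4 ^ e (h.val / 2) else 2 * n * M + δ)
      (Paux (mapW (GR K n) W) n M δ e (fun α => algebraMap K (GR K n) (c α)) (fun _ => false)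
        (gX K n) (sgn n ε (gP K n))) := by
  classical
  unfold Paux
  refine Wd.sum _ _ fun α _ => ?_
  -- the block of the variable `h'`
  have hblock : ∀ h' : Fin (2 * n), Wd h
      ((2 * M + 1) * 4 ^ e (h'.val / 2) * dl h h'.val + 2 * M * dl h (2 * n + h'.val % 2))
      (gX K n h'.val ^ (α.1 h').1.val *
        ((lawV (mapW (GR K n) W) n e (fun _ => false) (gX K n) (sgn n ε (gP K n)) h'.val).1 ^
            (M - (α.1 h').2.val) *
          (lawV (mapW (GR K n) W) n e (fun _ => false) (gX K n) (sgn n ε (gP K n)) h'.val).2 ^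
            (α.1 h').2.val)) := by
    intro h'
    have hlaw := Wd_law (h := h) (W := mapW (GR K n) W (h'.val % 2)) (Cb_map _)
      (Wd.gX (K := K) h'.val) (Wd.gX (K := K) (2 * n + h'.val % 2))
      (((Wd.sgn (K := K) ε h'.val).mul (Wd.sgn (K := K) ε (2 * n + h'.val % 2))))
      (e (h'.val / 2))
    obtain ⟨hl1, hl2⟩ := hlaw
    refine ((Wd.gX h'.val).pow _ |>.mul ((hl1.pow _).mul (hl2.pow _))).mono ?_
    have h1 : (α.1 h').1.val ≤ 4 ^ e (h'.val / 2) := (α.1 h').1.isLt.le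
    have h2 : (α.1 h').2.val ≤ M := Nat.lt_succ_iff.1 (α.1 h').2.isLt
    have h3 : (M - (α.1 h').2.val) + (α.1 h').2.val = M := Nat.sub_add_cancel h2
    rw [← add_mul, h3]
    have h4 : (α.1 h').1.val * dl h h'.val ≤ 4 ^ e (h'.val / 2) * dl h h'.val :=
      Nat.mul_le_mul_right _ h1
    calc (α.1 h').1.val * dl h h'.val +
          M * (2 * 4 ^ e (h'.val / 2) * dl h h'.val + 2 * dl h (2 * n + h'.val % 2))
        ≤ 4 ^ e (h'.val / 2) * dl h h'.val +
          M * (2 * 4 ^ e (h'.val / 2) * dl h h'.val + 2 * dl h (2 * n + h'.val % 2)) :=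
          Nat.add_le_add_right h4 _
      _ = _ := by ring
  have hprod := Wd.prod Finset.univ _ _ (fun h' _ => hblock h')
  have hlast : Wd h (∑ i : Fin 2, (α.2 i).val * dl h (2 * n + i.val))
      (∏ i : Fin 2, gX K n (2 * n + i.val) ^ (α.2 i).val) :=
    Wd.prod Finset.univ _ _ (fun i _ => (Wd.gX _).pow _)
  refine (((Wd.algebraMap (c α)).mul hprod).mul hlast).mono ?_
  rw [zero_add, Finset.sum_add_distrib]
  by_cases hh : h.val < 2 * n
  · rw [if_pos hh]
    have h1 : ∑ h' : Fin (2 * n), (2 * M + 1) * 4 ^ e (h'.val / 2) * dl h h'.val =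
        (2 * M + 1) * 4 ^ e (h.val / 2) := by
      rw [Finset.sum_eq_single (⟨h.val, hh⟩ : Fin (2 * n))]
      · simp [dl]
      · intro b _ hb
        have h2 : ¬ (b.val = h.val) := fun h3 => hb (Fin.ext h3)
        simp [dl, h2]
      · intro h3
        exact absurd (Finset.mem_univ _) h3
    have h2 : ∑ h' : Fin (2 * n), 2 * M * dl h (2 * n + h'.val % 2) = 0 := by
      refine Finset.sum_eq_zero fun b _ => ?_
      have h3 : ¬ (2 * n + b.val % 2 = h.val) := by omega
      simp [dl, h3]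
    have h3 : ∑ i : Fin 2, (α.2 i).val * dl h (2 * n + i.val) = 0 := by
      refine Finset.sum_eq_zero fun b _ => ?_
      have h3 : ¬ (2 * n + b.val = h.val) := by omega
      simp [dl, h3]
    rw [h1, h2, h3]
    omega
  · rw [if_neg hh]
    have hlt := h.isLt
    obtain ⟨i, hi⟩ := Nat.exists_eq_add_of_le (not_lt.1 hh)
    have hi2 : i < 2 := by omega
    have h1 : ∑ h' : Fin (2 * n), (2 * M + 1) * 4 ^ e (h'.val / 2) * dl h h'.val = 0 := by
      refine Finset.sum_eq_zero fun b _ => ?_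
      have h3 : ¬ (b.val = h.val) := by have := b.isLt; omega
      simp [dl, h3]
    have h2 : ∑ h' : Fin (2 * n), 2 * M * dl h (2 * n + h'.val % 2) = 2 * n * M := by
      rw [← Finset.mul_sum]
      have h3 : ∑ h' : Fin (2 * n), dl h (2 * n + h'.val % 2) = n := by
        refine Eq.trans (Finset.sum_congr rfl fun b _ => ?_) (card_mod n i hi2)
        unfold dl
        rw [hi]
      rw [h3]
      ring
    have h3 : ∑ i : Fin 2, (α.2 i).val * dl h (2 * n + i.val) ≤ δ := by
      rw [Finset.sum_eq_single (⟨i, hi2⟩ : Fin 2)]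
      · have h4 : dl h (2 * n + i) = 1 := by simp [dl, hi]
        rw [h4, mul_one]
        exact (α.2 _).isLt.le
      · intro b _ hb
        have h2 : ¬ (2 * n + b.val = h.val) := fun h3 => hb (Fin.ext (by
          show b.val = i
          omega))
        simp [dl, h2]
      · intro h3
        exact absurd (Finset.mem_univ _) h3
    rw [h1, h2]
    omega

theorem mainQ (K : Type) [Field K] (W : ℕ → Affine K) (n M δ : ℕ) (e : ℕ → ℕ)
    (c : Idx n M δ e → K) (h : Fin (2 * n + 2)) :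
    Wd h (ddM n M δ e h.val) (∏ ε : Fin (2 * n) → ℤˣ,
      Paux (mapW (GR K n) W) n M δ e (fun α => algebraMap K (GR K n) (c α)) (fun _ => false)
        (gX K n) (sgn n ε (gP K n))) := by
  refine (Wd.prod Finset.univ _ _ (fun ε _ => main K W n M δ e c ε h)).mono (le_of_eq ?_)
  rw [Finset.sum_const, Finset.card_univ, Fintype.card_fun, Fintype.card_fin, Fintype.card_units_int,
    pow_mul, smul_eq_mul]
  unfold ddM
  norm_num

/-- **NQW.** -/
theorem t_NQW : Pool.Agent.Helper65.SG.NQW :=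
  fun K _ W n M δ e c h => mainQ K W n M δ e c h

end

end Pool.Agent.Helper23.SGT
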